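import Pool.Agent.Q6.TY.Stm

/-!
# Project TY, job TY-ALG: isolated zeros are algebraic

A prime of `ℚ[x]` with finitely many complex zeros is contained in finitely many maximal ideals, so
it is maximal, since `ℚ[x]` is a Jacobson ring.
-/

set_option autoImplicit false
set_option maxHeartbeats 400000

namespace Pool.Agent.Q14.TY

open MvPolynomial Pool.Agent.Q6.TY

theorem alg_aux {t : ℕ} {F : Set (P t)} (hZ : (Zer F).Finite) {L : Type} [Field L] [CharZero L]
    (θ : P t →+* L) (hF : ∀ f ∈ F, θ f = 0) (i : Fin t) : IsAlgebraic ℚ (θ (X i)) := by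
  classical
  obtain ⟨ψ, hψC, hψX⟩ : ∃ ψ : MvPolynomial (Fin t) ℚ →+* L,
      (∀ c, ψ (C c) = algebraMap ℚ L c) ∧ ∀ i, ψ (X i) = θ (X i) :=
    ⟨eval₂Hom (algebraMap ℚ L) (fun i => θ (X i)), fun c => eval₂Hom_C _ _ _,
      fun i => eval₂Hom_X' _ _ _⟩
  have hψ : ∀ f : P t, ψ (map (Int.castRingHom ℚ) f) = θ f := by
    intro f
    have h1 : ψ.comp (map (Int.castRingHom ℚ)) = θ := by
      apply MvPolynomial.ringHom_ext
      · intro r
        rw [RingHom.comp_apply, map_C, hψC]
        have h2 : (C r : P t) = (r : P t) := by simp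
        rw [h2, map_intCast]
        simp
      · intro i
        rw [RingHom.comp_apply, map_X, hψX]
    rw [← h1]
    rfl
  have hQ : (RingHom.ker ψ).IsPrime := RingHom.ker_isPrime ψ
  have hS : {J : Ideal (MvPolynomial (Fin t) ℚ) | RingHom.ker ψ ≤ J ∧ J.IsMaximal}.Finite := by
    refine (hZ.image (fun x => vanishingIdeal ℚ {x})).subset ?_
    rintro J ⟨hJ1, hJ2⟩
    obtain ⟨x, hx⟩ := eq_vanishingIdeal_singleton_of_isMaximal ℂ hJ2
    refine ⟨x, ?_, hx.symm⟩
    intro f hf
    have h1 : map (Int.castRingHom ℚ) f ∈ J := hJ1 (by rw [RingHom.mem_ker, hψ, hF f hf])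
    rw [hx, mem_vanishingIdeal_singleton_iff] at h1
    have h2 : aeval x (map (algebraMap ℤ ℚ) f) = aeval x f := aeval_map_algebraMap ℚ x f
    unfold evh
    exact h2.symm.trans h1
  have hmax : (RingHom.ker ψ).IsMaximal := by
    have h1 : (RingHom.ker ψ).jacobson = RingHom.ker ψ := 
      (inferInstance : IsJacobsonRing (MvPolynomial (Fin t) ℚ)).out hQ.isRadical
    have h2 : hS.toFinset.inf id ≤ RingHom.ker ψ := by
      rw [Finset.inf_id_eq_sInf, Set.Finite.coe_toFinset]
      exact h1.le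
    obtain ⟨J, hJ, hJ'⟩ := (Ideal.IsPrime.inf_le' hQ).1 h2
    rw [Set.Finite.mem_toFinset] at hJ
    have h3 : RingHom.ker ψ = J := le_antisymm hJ.1 hJ'
    rw [h3]
    exact hJ.2
  obtain ⟨h, hm, hr⟩ := MvPolynomial.quotient_mk_comp_C_isIntegral_of_isJacobsonRing
    (RingHom.ker ψ) (Ideal.Quotient.mk (RingHom.ker ψ) (X i))
  refine ⟨h, hm.ne_zero, ?_⟩
  rw [← Polynomial.hom_eval₂, Ideal.Quotient.eq_zero_iff_mem, RingHom.mem_ker,
    Polynomial.hom_eval₂, hψX] at hr
  have hc : ψ.comp C = algebraMap ℚ L := RingHom.ext hψC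
  rw [hc] at hr
  exact hr

theorem alg_second {t : ℕ} {F : Set (P t)} (hZ : (Zer F).Finite) {p : Fin t → ℂ} {L : Type}
    [Field L] [CharZero L] (θ : P t →+* L) (hF : ∀ f ∈ F, θ f = 0) (hle : RingHom.ker θ ≤ mx p)
    {g : P t} (hg : g ∈ mx p) : θ g = 0 := by
  by_contra hθg
  have halg : ∀ f : P t, IsAlgebraic ℚ (θ f) := by
    intro f
    have h1 : θ f ∈ (Subalgebra.algebraicClosure ℚ L) := by
      induction f using MvPolynomial.induction_on with
      | C a =>
        have h2 : (C a : P t) = (a : P t) := by simp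
        rw [h2, map_intCast]
        exact intCast_mem _ a
      | add f g hf hg => rw [map_add]; exact add_mem hf hg
      | mul_X f i hf =>
        rw [map_mul]
        refine mul_mem hf ?_
        exact alg_aux hZ θ hF i
    exact h1
  have halg' : IsAlgebraic ℤ (θ g) := (IsFractionRing.isAlgebraic_iff ℤ ℚ L).2 (halg g)
  obtain ⟨h, h0, hr⟩ := halg'.exists_nonzero_coeff_and_aeval_eq_zero
    (mem_nonZeroDivisors_of_ne_zero hθg)
  have h1 : θ (Polynomial.aeval g h) = 0 := by
    rw [← hr, Polynomial.aeval_eq_sum_range, Polynomial.aeval_eq_sum_range, map_sum]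
    refine Finset.sum_congr rfl fun i _ => ?_
    rw [map_zsmul, map_pow]
  have h2 : Polynomial.aeval g h ∈ mx p := hle h1
  unfold mx at h2 hg
  rw [RingHom.mem_ker] at h2 hg
  have h3 : evh p (Polynomial.aeval g h) = (h.coeff 0 : ℂ) := by
    have h4 : evh p (Polynomial.aeval g h) = Polynomial.aeval (evh p g) h := by
      rw [Polynomial.aeval_eq_sum_range, Polynomial.aeval_eq_sum_range, map_sum]
      refine Finset.sum_congr rfl fun i _ => ?_
      rw [map_zsmul, map_pow]
    rw [h4, hg, ← Polynomial.coeff_zero_eq_aeval_zero']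
    simp
  rw [h3] at h2
  exact h0 (by exact_mod_cast h2)

theorem task_ALG : S_ALG := by
  intro t F hZ p hp
  refine ⟨fun i => ?_, ?_⟩
  · have h1 := alg_aux hZ (evh p) hp i
    have h2 : evh p (X i) = p i := by
      unfold evh
      exact aeval_X _ _
    rwa [h2] at h1
  · intro q hq hF hle
    refine le_antisymm hle fun g hg => ?_
    have := hq
    have hdom : IsDomain (P t ⧸ q) := Ideal.Quotient.isDomain q
    obtain ⟨θ, hθ⟩ : ∃ θ : P t →+* FractionRing (P t ⧸ q), θ =
      (algebraMap (P t ⧸ q) (FractionRing (P t ⧸ q))).comp (Ideal.Quotient.mk q) := ⟨_, rfl⟩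
    have hker : ∀ f, θ f = 0 ↔ f ∈ q := by
      intro f
      rw [hθ, RingHom.comp_apply, ← Ideal.Quotient.eq_zero_iff_mem]
      exact map_eq_zero_iff _ (IsFractionRing.injective (P t ⧸ q) (FractionRing (P t ⧸ q)))
    have hchar : CharZero (FractionRing (P t ⧸ q)) := by
      refine charZero_of_inj_zero fun n hn => ?_
      have h1 : θ (C (n : ℤ)) = 0 := by
        have h2 : (C (n : ℤ) : P t) = (n : P t) := by simp
        rw [h2, map_natCast, hn]
      rw [hker] at h1
      have h3 := hle h1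
      unfold mx at h3
      rw [RingHom.mem_ker] at h3
      have h4 : evh p (C (n : ℤ)) = (n : ℂ) := by
        have h2 : (C (n : ℤ) : P t) = (n : P t) := by simp
        rw [h2, map_natCast]
      rw [h4] at h3
      exact_mod_cast h3
    rw [← hker]
    exact alg_second hZ θ (fun f hf => (hker f).2 (hF f hf))
      (fun f hf => hle ((hker f).1 hf)) hg

end Pool.Agent.Q14.TY
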