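import Pool.Agent.Q6.TY.Stm

/-!
# Project TY, job TY-HGT: heights of the quotients by the toric primes
-/

set_option autoImplicit false
set_option maxHeartbeats 400000

namespace Pool.Agent.Q14.TY

open MvPolynomial Pool.Agent.Q6.TY

/-- the height in the quotient grows by one along a strict inclusion of primes -/
theorem height_step {R : Type} [CommRing R] {q q' m : Ideal R} (hq : q.IsPrime) (hm : m.IsPrime)
    (hqq : q < q') (hqm : q' ≤ m) :
    (m.map (Ideal.Quotient.mk q')).height + 1 ≤ (m.map (Ideal.Quotient.mk q)).height := by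
  have := hm
  have := hq
  have : IsDomain (R ⧸ q) := Ideal.Quotient.isDomain q
  have hqm' : q ≤ m := hqq.le.trans hqm
  have hp' : (m.map (Ideal.Quotient.mk q')).IsPrime :=
    Ideal.map_isPrime_of_surjective Ideal.Quotient.mk_surjective (by rw [Ideal.mk_ker]; exact hqm)
  have hp : (m.map (Ideal.Quotient.mk q)).IsPrime :=
    Ideal.map_isPrime_of_surjective Ideal.Quotient.mk_surjective (by rw [Ideal.mk_ker]; exact hqm')
  obtain ⟨φ, hφ⟩ : ∃ φ : R ⧸ q →+* R ⧸ q', ∀ z, φ (Ideal.Quotient.mk q z) =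
      Ideal.Quotient.mk q' z := ⟨Ideal.Quotient.factor hqq.le, fun z => rfl⟩
  have hφs : Function.Surjective φ := by
    intro y
    obtain ⟨z, rfl⟩ := Ideal.Quotient.mk_surjective y
    exact ⟨_, hφ z⟩
  obtain ⟨f, hf⟩ : ∃ f : PrimeSpectrum (R ⧸ q') → PrimeSpectrum (R ⧸ q),
      ∀ y, (f y).asIdeal = Ideal.comap φ y.asIdeal :=
    ⟨fun y => ⟨Ideal.comap φ y.asIdeal, Ideal.comap_isPrime _ _⟩, fun y => rfl⟩
  have hfx : f ⟨_, hp'⟩ = ⟨m.map (Ideal.Quotient.mk q), hp⟩ := by
    rw [PrimeSpectrum.ext_iff, hf]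
    apply Ideal.comap_injective_of_surjective (Ideal.Quotient.mk q) Ideal.Quotient.mk_surjective
    rw [Ideal.comap_comap, Ideal.comap_map_mk hqm']
    have hc : φ.comp (Ideal.Quotient.mk q) = Ideal.Quotient.mk q' := RingHom.ext hφ
    rw [hc]
    exact Ideal.comap_map_mk hqm
  obtain ⟨z, hz', hz⟩ := SetLike.exists_of_lt hqq
  have hbot : (⊥ : Ideal (R ⧸ q)).IsPrime := Ideal.isPrime_bot
  obtain ⟨g, hg0, hg1⟩ : ∃ g : WithBot (PrimeSpectrum (R ⧸ q')) → PrimeSpectrum (R ⧸ q),
      g ⊥ = ⟨⊥, hbot⟩ ∧ ∀ y : PrimeSpectrum (R ⧸ q'), g y = f y :=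
    ⟨fun y => WithBot.recBotCoe ⟨⊥, hbot⟩ f y, rfl, fun y => rfl⟩
  have hgm : StrictMono g := by
    intro a b hab
    induction b using WithBot.recBotCoe with
    | bot => exact absurd hab not_lt_bot
    | coe b =>
      induction a using WithBot.recBotCoe with
      | bot =>
        rw [hg0, hg1, ← PrimeSpectrum.asIdeal_lt_asIdeal, hf]
        refine lt_of_le_of_ne bot_le fun h => ?_
        have h1 : Ideal.Quotient.mk q z ∈ Ideal.comap φ b.asIdeal := by
          rw [Ideal.mem_comap, hφ, Ideal.Quotient.eq_zero_iff_mem.2 hz']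
          exact Ideal.zero_mem _
        rw [← h, Ideal.mem_bot, Ideal.Quotient.eq_zero_iff_mem] at h1
        exact hz h1
      | coe a =>
        have hab' : a < b := WithBot.coe_lt_coe.1 hab
        rw [hg1, hg1, ← PrimeSpectrum.asIdeal_lt_asIdeal, hf, hf]
        refine lt_of_le_of_ne (Ideal.comap_mono hab'.le) fun h => ?_
        have h1 := Ideal.comap_injective_of_surjective φ hφs h
        exact hab'.ne (PrimeSpectrum.ext h1)
  have h2 := Order.height_le_height_apply_of_strictMono g hgm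
    ((⟨_, hp'⟩ : PrimeSpectrum (R ⧸ q')) : WithBot (PrimeSpectrum (R ⧸ q')))
  rw [Order.height_coe_withBot, hg1, hfx, ← PrimeSpectrum.height_eq_orderHeight,
    ← PrimeSpectrum.height_eq_orderHeight] at h2
  exact h2

/-- the coefficients of a polynomial in a monomial of the group algebra -/
theorem coeff_aeval {G : Type} [AddCommGroup G] {g : G} (hg : ∀ i j : ℕ, i • g = j • g → i = j)
    (c : ℂ) (h : Polynomial ℤ) (k : ℕ) :
    (Polynomial.aeval (AddMonoidAlgebra.single g c) h).coeff (k • g) =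
      (h.coeff k : ℂ) * c ^ k := by
  classical
  rw [Polynomial.aeval_eq_sum_range, AddMonoidAlgebra.coeff_sum, Finsupp.finsetSum_apply]
  have h1 : ∀ i : ℕ, (h.coeff i • (AddMonoidAlgebra.single g c : AddMonoidAlgebra ℂ G) ^ i).coeff
      (k • g) = if i = k then (h.coeff k : ℂ) * c ^ k else 0 := by
    intro i
    rw [AddMonoidAlgebra.single_pow, ← Int.cast_smul_eq_zsmul ℂ, AddMonoidAlgebra.coeff_smul,
      Finsupp.smul_apply, AddMonoidAlgebra.coeff_single, Finsupp.single_apply]
    by_cases hik : i = k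
    · rw [if_pos hik, hik, if_pos rfl, smul_eq_mul]
    · rw [if_neg hik, if_neg fun h' => hik (hg _ _ h'), smul_zero]
  rw [Finset.sum_congr rfl fun i _ => h1 i, Finset.sum_ite_eq' (Finset.range (h.natDegree + 1)) k]
  split_ifs with hk
  · rfl
  · rw [Finset.mem_range, not_lt] at hk
    rw [Polynomial.coeff_eq_zero_of_natDegree_lt (by omega), Int.cast_zero, zero_mul]

/-- strict inclusion -/
theorem tor_lt {t : ℕ} {p : Fin t → ℂ} (hp : ∀ i, p i ≠ 0) {V V' : Submodule ℚ (Fin t → ℚ)}
    (hle : tor p V ≤ tor p V') {j : Fin t} (ha : IsAlgebraic ℚ (p j))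
    (hj : (Pi.single j 1 : Fin t → ℚ) ∉ V) (hj' : (Pi.single j 1 : Fin t → ℚ) ∈ V') :
    tor p V < tor p V' := by
  obtain ⟨h, h0, hr⟩ := (IsFractionRing.isAlgebraic_iff ℤ ℚ ℂ).2 ha
  have hX : ∀ W : Submodule ℚ (Fin t → ℚ), torHom p W (Polynomial.aeval (X j) h) =
      Polynomial.aeval (AddMonoidAlgebra.single (W.mkQ (Pi.single j 1)) (p j)) h := by
    intro W
    have h1 : torHom p W (X j) = AddMonoidAlgebra.single (W.mkQ (Pi.single j 1)) (p j) := by
      unfold torHom
      exact aeval_X _ _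
    rw [Polynomial.aeval_eq_sum_range, Polynomial.aeval_eq_sum_range, map_sum]
    refine Finset.sum_congr rfl fun i _ => ?_
    rw [map_zsmul, map_pow, h1]
  refine lt_of_le_of_ne hle fun he => ?_
  have h1 : Polynomial.aeval (X j : P t) h ∈ tor p V' := by
    unfold tor
    rw [RingHom.mem_ker, hX]
    have h2 : V'.mkQ (Pi.single j 1) = 0 := by
      rw [Submodule.mkQ_apply]
      exact (Submodule.Quotient.mk_eq_zero _).2 hj'
    have h3 : (AddMonoidAlgebra.single (0 : (Fin t → ℚ) ⧸ V') (p j)) =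
        algebraMap ℂ (AddMonoidAlgebra ℂ ((Fin t → ℚ) ⧸ V')) (p j) := rfl
    rw [h2, h3, Polynomial.aeval_algebraMap_apply, hr, map_zero]
  rw [← he] at h1
  unfold tor at h1
  rw [RingHom.mem_ker, hX] at h1
  apply h0
  ext k
  have hg0 : V.mkQ (Pi.single j 1) ≠ 0 := by
    rw [Submodule.mkQ_apply]
    exact fun h2 => hj ((Submodule.Quotient.mk_eq_zero _).1 h2)
  have hg : ∀ i l : ℕ, i • V.mkQ (Pi.single j 1) = l • V.mkQ (Pi.single j 1) → i = l := by
    intro i l hil
    rw [← Nat.cast_smul_eq_nsmul ℚ, ← Nat.cast_smul_eq_nsmul ℚ] at hil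
    have := smul_left_injective ℚ hg0 hil
    exact_mod_cast this
  have h2 := coeff_aeval hg (p j) h k
  rw [h1, AddMonoidAlgebra.coeff_zero, Finsupp.zero_apply] at h2
  have h3 := mul_eq_zero.1 h2.symm
  rcases h3 with h3 | h3
  · rw [Polynomial.coeff_zero]
    exact_mod_cast h3
  · exact absurd h3 (pow_ne_zero _ (hp j))

theorem task_HGT : S_TORP → S_HGT := by
  intro hT t p hp halg
  obtain ⟨h1, h2, h3, h4, h5, -⟩ := hT t p hp
  have hmp : (mx p).IsPrime := h4 ▸ h1 ⊤
  suffices H : ∀ d : ℕ, ∀ V : Submodule ℚ (Fin t → ℚ), t ≤ Module.finrank ℚ V + d →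
      (t : ℕ∞) ≤ ((mx p).map (Ideal.Quotient.mk (tor p V))).height +
        (Module.finrank ℚ V : ℕ∞) by
    intro V
    exact H t V (by omega)
  intro d
  induction d with
  | zero =>
    intro V hV
    refine le_add_left ?_
    exact_mod_cast hV
  | succ d ih =>
    intro V hV
    by_cases hVt : ∀ j : Fin t, (Pi.single j 1 : Fin t → ℚ) ∈ V
    · have htop : V = ⊤ := by
        rw [eq_top_iff]
        intro w _
        have hw : w = ∑ j, w j • (Pi.single j 1 : Fin t → ℚ) := by
          ext i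
          rw [Finset.sum_apply, Finset.sum_eq_single i]
          · simp
          · intro b _ hb
            simp [Pi.single_eq_of_ne hb.symm]
          · intro hi
            exact absurd (Finset.mem_univ i) hi
        rw [hw]
        exact Submodule.sum_mem _ fun j _ => Submodule.smul_mem _ _ (hVt j)
      refine le_add_left ?_
      rw [htop, finrank_top, Module.finrank_fin_fun]
    · push Not at hVt
      obtain ⟨j, hj⟩ := hVt
      obtain ⟨V', hV'⟩ : ∃ V', V' = V ⊔ Submodule.span ℚ {(Pi.single j 1 : Fin t → ℚ)} := ⟨_, rfl⟩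
      have hle : V ≤ V' := hV' ▸ le_sup_left
      have hj' : (Pi.single j 1 : Fin t → ℚ) ∈ V' := by
        rw [hV']
        exact Submodule.mem_sup_right (Submodule.mem_span_singleton_self _)
      have hlt : V < V' := lt_of_le_of_ne hle fun h => hj (h ▸ hj')
      have hr1 : Module.finrank ℚ V < Module.finrank ℚ V' := Submodule.finrank_lt_finrank_of_lt hlt
      have hr2 : Module.finrank ℚ V' ≤ Module.finrank ℚ V + 1 := by
        rw [hV']
        refine (Submodule.finrank_add_le_finrank_add_finrank _ _).trans ?_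
        have h9 : (Pi.single j 1 : Fin t → ℚ) ≠ 0 := fun h => by
          have h10 := congrFun h j
          rw [Pi.single_eq_same] at h10
          exact one_ne_zero h10
        have := finrank_span_singleton (K := ℚ) h9
        omega
      have h6 := height_step (h1 V) hmp (tor_lt hp (h5 V V' hle) (halg j) hj hj') (h2 V')
      have h7 := ih V' (by omega)
      have h8 : Module.finrank ℚ V' = Module.finrank ℚ V + 1 := by omega
      rw [h8] at h7
      refine h7.trans ?_
      push_cast
      rw [add_comm (Module.finrank ℚ V : ℕ∞) 1, ← add_assoc]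
      exact add_le_add_left h6 _

end Pool.Agent.Q14.TY
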