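import Pool.Agent.Q6.TY.Stm

/-!
# Project TY, job TY-VOL: separated exact functions
-/

set_option autoImplicit false
set_option maxHeartbeats 400000

namespace Pool.Agent.Q14.TY

open MvPolynomial Pool.Agent.Q6.TY

section Pack

open MeasureTheory Metric Module Set
open scoped ENNReal

/-- packing -/
theorem pack {E : Type} [NormedAddCommGroup E] [NormedSpace ℝ E] [FiniteDimensional ℝ E]
    (s : Finset E) {ρ ε : ℝ} (hρ : 0 < ρ) (hε : 0 < ε) (hs : ∀ c ∈ s, ‖c‖ ≤ ρ)
    (h : ∀ c ∈ s, ∀ d ∈ s, c ≠ d → ε ≤ ‖c - d‖) :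
    (s.card : ℝ) ≤ (1 + 2 * ρ / ε) ^ finrank ℝ E := by
  borelize E
  obtain ⟨δ, hδ⟩ : ∃ δ, δ = ε / 2 := ⟨_, rfl⟩
  obtain ⟨r, hr⟩ : ∃ r, r = ρ + δ := ⟨_, rfl⟩
  have hδ0 : 0 < δ := by rw [hδ]; positivity
  have hr0 : 0 < r := by rw [hr]; positivity
  have D : Set.Pairwise (s : Set E) (Function.onFun Disjoint fun c => ball (c : E) δ) := by
    rintro c hc d hd hcd
    apply ball_disjoint_ball
    rw [dist_eq_norm]
    have := h c hc d hd hcd
    rw [hδ]
    linarith
  have hsub : (⋃ c ∈ s, ball (c : E) δ) ⊆ ball (0 : E) r := by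
    refine iUnion₂_subset fun x hx => ?_
    apply ball_subset_ball'
    rw [dist_zero_right, hr]
    have := hs x hx
    linarith
  have I : (s.card : ℝ≥0∞) * ENNReal.ofReal (δ ^ finrank ℝ E) *
      (Measure.addHaar : Measure E) (ball 0 1) ≤
      ENNReal.ofReal (r ^ finrank ℝ E) * (Measure.addHaar : Measure E) (ball 0 1) :=
    calc
      (s.card : ℝ≥0∞) * ENNReal.ofReal (δ ^ finrank ℝ E) *
        (Measure.addHaar : Measure E) (ball 0 1) =
          (Measure.addHaar : Measure E) (⋃ c ∈ s, ball (c : E) δ) := by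
        rw [measure_biUnion_finset D fun c _ => measurableSet_ball]
        simp only [(Measure.addHaar : Measure E).addHaar_ball_of_pos _ hδ0]
        simp only [Finset.sum_const, nsmul_eq_mul, mul_assoc]
      _ ≤ (Measure.addHaar : Measure E) (ball (0 : E) r) := measure_mono hsub
      _ = ENNReal.ofReal (r ^ finrank ℝ E) * (Measure.addHaar : Measure E) (ball 0 1) := by
        simp only [(Measure.addHaar : Measure E).addHaar_ball_of_pos _ hr0]
  have J : (s.card : ℝ≥0∞) * ENNReal.ofReal (δ ^ finrank ℝ E) ≤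
      ENNReal.ofReal (r ^ finrank ℝ E) :=
    (ENNReal.mul_le_mul_iff_left (measure_ball_pos _ _ zero_lt_one).ne' measure_ball_lt_top.ne).1 I
  have K : (s.card : ℝ) * δ ^ finrank ℝ E ≤ r ^ finrank ℝ E := by
    have := ENNReal.toReal_le_of_le_ofReal (pow_nonneg hr0.le _) J
    rwa [ENNReal.toReal_mul, ENNReal.toReal_ofReal (pow_nonneg hδ0.le _),
      ENNReal.toReal_natCast] at this
  have e : 1 + 2 * ρ / ε = r / δ := by
    rw [hr, hδ]
    field_simp
    ring
  rw [e, div_pow, le_div_iff₀ (pow_pos hδ0 _)]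
  exact K

end Pack

/-- a basis up to torsion -/
theorem quasi_basis (M : Type) [AddCommGroup M] [Module.Finite ℤ M] :
    ∃ b : Fin (Module.finrank ℤ M) → M, ∀ m : M, ∃ c : ℤ, c ≠ 0 ∧
      ∃ a : Fin (Module.finrank ℤ M) → ℤ, c • m = ∑ i, a i • b i := by
  obtain ⟨b, hb⟩ := exists_linearIndependent_of_le_finrank (R := ℤ) (M := M) le_rfl
  refine ⟨b, fun m => ?_⟩
  by_contra hcon
  push Not at hcon
  have hli : LinearIndependent ℤ (Fin.cons m b : Fin (Module.finrank ℤ M + 1) → M) := by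
    rw [Fintype.linearIndependent_iff]
    intro g hg
    rw [Fin.sum_univ_succ, Fin.cons_zero] at hg
    simp only [Fin.cons_succ] at hg
    have h0 : g 0 = 0 := by
      by_contra hne
      apply hcon (g 0) hne (fun i => -g (Fin.succ i))
      rw [eq_neg_of_add_eq_zero_left hg, ← Finset.sum_neg_distrib]
      exact Finset.sum_congr rfl fun i _ => (neg_smul _ _).symm
    rw [h0, zero_smul, zero_add] at hg
    have h1 := Fintype.linearIndependent_iff.1 hb (fun i => g (Fin.succ i)) hg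
    intro i
    refine Fin.cases h0 (fun i => h1 i) i
  have h2 := hli.fintype_card_le_finrank
  rw [Fintype.card_fin] at h2
  omega

/-- the linear form of a function on the exponents -/
theorem exists_form {t : ℕ} (y : (Fin t →₀ ℕ) → ℝ) : ∃ T : P t →ₗ[ℤ] ℝ,
    (∀ u, T (monomial u 1) = y u) ∧ ∀ f, T f = ∑ u ∈ f.support, ((coeff u f : ℤ) : ℝ) * y u := by
  have h1 : ∃ T : P t →ₗ[ℤ] ℝ, ∀ u, T (monomial u 1) = y u := by
    refine ⟨(basisMonomials (Fin t) ℤ).constr ℤ y, fun u => ?_⟩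
    have := (basisMonomials (Fin t) ℤ).constr_basis ℤ y u
    rwa [coe_basisMonomials] at this
  obtain ⟨T, hT⟩ := h1
  refine ⟨T, hT, fun f => ?_⟩
  conv_lhs => rw [f.as_sum]
  rw [map_sum]
  refine Finset.sum_congr rfl fun u _ => ?_
  have h2 : monomial u (coeff u f) = (coeff u f) • (monomial u (1 : ℤ)) := by
    rw [smul_monomial, smul_eq_mul, mul_one]
  rw [h2, map_smul, hT, zsmul_eq_mul]

theorem Md_finite {t : ℕ} (I : Ideal (P t)) (n : ℕ) : Module.Finite ℤ (Md I n) := by
  have h1 : Module.Finite ℤ (restrictTotalDegree (Fin t) ℤ n) := by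
    have hfin : {u : Fin t →₀ ℕ | (u.sum fun _ e => e) ≤ n}.Finite := Finsupp.finite_of_degree_le n
    have := hfin.to_subtype
    exact Module.Finite.of_basis (basisRestrictSupport ℤ {u : Fin t →₀ ℕ | (u.sum fun _ e => e) ≤ n})
  unfold Md
  exact Module.Finite.map _ _

theorem mem_Md {t : ℕ} (I : Ideal (P t)) (n : ℕ) {f : P t} (hf : f.totalDegree ≤ n) :
    Ideal.Quotient.mk I f ∈ Md I n := by
  unfold Md
  rw [Submodule.mem_map]
  exact ⟨f, (mem_restrictTotalDegree (Fin t) n f).2 hf, rfl⟩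

theorem totalDegree_mono {t : ℕ} {u : Fin t →₀ ℕ} {n : ℕ} (hu : u.degree ≤ n) (c : ℤ) :
    (monomial u c : P t).totalDegree ≤ n :=
  (totalDegree_monomial_le u c).trans hu

theorem degree_le_of_mem {t : ℕ} {f : P t} {n : ℕ} (hf : f.totalDegree ≤ n) {u : Fin t →₀ ℕ}
    (hu : u ∈ f.support) : u.degree ≤ n :=
  (le_totalDegree hu).trans hf

open Classical in
/-- extension by zero -/
noncomputable def ext0 {t : ℕ} {n : ℕ} (z : {u : Fin t →₀ ℕ // u.degree ≤ n} → ℝ)
    (u : Fin t →₀ ℕ) : ℝ := if h : u.degree ≤ n then z ⟨u, h⟩ else 0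

theorem ext0_add {t : ℕ} {n : ℕ} (z w : {u : Fin t →₀ ℕ // u.degree ≤ n} → ℝ)
    (u : Fin t →₀ ℕ) : ext0 (z + w) u = ext0 z u + ext0 w u := by
  unfold ext0
  split_ifs
  · rfl
  · rw [add_zero]

theorem ext0_smul {t : ℕ} {n : ℕ} (c : ℝ) (z : {u : Fin t →₀ ℕ // u.degree ≤ n} → ℝ)
    (u : Fin t →₀ ℕ) : ext0 (c • z) u = c * ext0 z u := by
  unfold ext0
  split_ifs
  · rfl
  · rw [mul_zero]

/-- the space of exact functions -/
def Y {t : ℕ} (I : Ideal (P t)) (n : ℕ) :
    Submodule ℝ ({u : Fin t →₀ ℕ // u.degree ≤ n} → ℝ) where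
  carrier := {z | Exact I n (ext0 z)}
  zero_mem' := by
    intro f _ _
    refine Finset.sum_eq_zero fun u _ => ?_
    unfold ext0
    split_ifs <;> simp
  add_mem' := by
    intro z w hz hw f hf hd
    have h1 := hz f hf hd
    have h2 := hw f hf hd
    rw [← add_zero (0 : ℝ)]
    nth_rewrite 1 [← h1]
    rw [← h2, ← Finset.sum_add_distrib]
    refine Finset.sum_congr rfl fun u _ => ?_
    rw [ext0_add]
    ring
  smul_mem' := by
    intro c z hz f hf hd
    have h1 := hz f hf hd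
    rw [← mul_zero c, ← h1, Finset.mul_sum]
    refine Finset.sum_congr rfl fun u _ => ?_
    rw [ext0_smul]
    ring

theorem finrank_Y {t : ℕ} (I : Ideal (P t)) (n : ℕ) : Module.finrank ℝ (Y I n) ≤ k I n := by
  classical
  have hfinW : Finite {u : Fin t →₀ ℕ // u.degree ≤ n} :=
    (Finsupp.finite_of_degree_le (σ := Fin t) n).to_subtype
  have := Md_finite I n
  obtain ⟨b, hb⟩ := quasi_basis (Md I n)
  have hB : ∀ i, ∃ B : P t, B.totalDegree ≤ n ∧ Ideal.Quotient.mk I B = (b i : P t ⧸ I) := by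
    intro i
    have h1 := (b i).2
    unfold Md at h1
    rw [Submodule.mem_map] at h1
    obtain ⟨B, hB1, hB2⟩ := h1
    exact ⟨B, (mem_restrictTotalDegree (Fin t) n B).1 hB1, hB2⟩
  choose B hB1 hB2 using hB
  obtain ⟨Φ, hΦ⟩ : ∃ Φ : Y I n →ₗ[ℝ] (Fin (Module.finrank ℤ (Md I n)) → ℝ),
      ∀ z i, Φ z i = ∑ u ∈ (B i).support, ((coeff u (B i) : ℤ) : ℝ) * ext0 z.1 u := by
    refine ⟨{ toFun := fun z i => ∑ u ∈ (B i).support, ((coeff u (B i) : ℤ) : ℝ) * ext0 z.1 u
              map_add' := ?_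
              map_smul' := ?_ }, fun z i => rfl⟩
    · intro z w
      funext i
      rw [Pi.add_apply, ← Finset.sum_add_distrib]
      refine Finset.sum_congr rfl fun u _ => ?_
      rw [Submodule.coe_add, ext0_add]
      ring
    · intro c z
      funext i
      rw [Pi.smul_apply, RingHom.id_apply, smul_eq_mul, Finset.mul_sum]
      refine Finset.sum_congr rfl fun u _ => ?_
      rw [Submodule.coe_smul, ext0_smul]
      ring
  have hinj : Function.Injective Φ := by
    rw [injective_iff_map_eq_zero]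
    intro z hz
    obtain ⟨T, hT1, hT2⟩ := exists_form (ext0 z.1)
    have hTB : ∀ i, T (B i) = 0 := by
      intro i
      rw [hT2, ← hΦ, hz]
      rfl
    apply Subtype.ext
    funext u
    have hm : Ideal.Quotient.mk I (monomial u.1 1) ∈ Md I n := mem_Md I n (totalDegree_mono u.2 1)
    obtain ⟨c, hc, a, ha⟩ := hb ⟨_, hm⟩
    have h1 : c • monomial u.1 1 - ∑ i, a i • B i ∈ I := by
      rw [← Ideal.Quotient.eq_zero_iff_mem, map_sub, map_zsmul, map_sum]
      have h2 := congrArg Subtype.val ha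
      rw [Submodule.coe_smul, Submodule.coe_sum] at h2
      rw [sub_eq_zero]
      refine h2.trans (Finset.sum_congr rfl fun i _ => ?_)
      rw [Submodule.coe_smul, map_zsmul, hB2]
    have h3 : (c • monomial u.1 1 - ∑ i, a i • B i : P t).totalDegree ≤ n := by
      rw [← mem_restrictTotalDegree]
      refine Submodule.sub_mem _ (Submodule.smul_mem _ _ ?_) (Submodule.sum_mem _ fun i _ =>
        Submodule.smul_mem _ _ ?_)
      · rw [mem_restrictTotalDegree]
        exact totalDegree_mono u.2 1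
      · rw [mem_restrictTotalDegree]
        exact hB1 i
    have h4 : T (c • monomial u.1 1 - ∑ i, a i • B i) = 0 := by
      rw [hT2]
      exact z.2 _ h1 h3
    rw [map_sub, map_zsmul, map_sum, hT1, Finset.sum_eq_zero, sub_zero] at h4
    · rw [zsmul_eq_mul] at h4
      have h5 : ext0 z.1 u.1 = z.1 u := by
        unfold ext0
        rw [dif_pos u.2]
      rw [h5] at h4
      rcases mul_eq_zero.1 h4 with h6 | h6
      · exact absurd (by exact_mod_cast h6) hc
      · exact h6
    · intro i _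
      rw [map_zsmul, hTB, smul_zero]
  have h1 := LinearMap.finrank_le_finrank_of_injective hinj
  rw [Module.finrank_fin_fun] at h1
  exact h1

theorem task_VOL : S_VOL := by
  intro t I n ρ ε hρ hε A hA hsep
  classical
  have hfinW : Finite {u : Fin t →₀ ℕ // u.degree ≤ n} :=
    (Finsupp.finite_of_degree_le (σ := Fin t) n).to_subtype
  have hFin : Fintype {u : Fin t →₀ ℕ // u.degree ≤ n} := Fintype.ofFinite _
  have hext : ∀ (y : (Fin t →₀ ℕ) → ℝ) (u : Fin t →₀ ℕ), u.degree ≤ n →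
      ext0 (n := n) (fun v => y v.1) u = y u := by
    intro y u hu
    unfold ext0
    rw [dif_pos hu]
  have hY : ∀ y ∈ A, (fun v : {u : Fin t →₀ ℕ // u.degree ≤ n} => y v.1) ∈ Y I n := by
    intro y hy f hf hd
    rw [← (hA y hy).1 f hf hd]
    refine Finset.sum_congr rfl fun u hu => ?_
    rw [hext y u (degree_le_of_mem hd hu)]
  obtain ⟨r, hr⟩ : ∃ r : ((Fin t →₀ ℕ) → ℝ) → Y I n, ∀ y ∈ A, ∀ v, (r y).1 v = y v.1 := by
    refine ⟨fun y => if h : y ∈ A then ⟨_, hY y h⟩ else 0, fun y hy v => ?_⟩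
    simp only [dif_pos hy]
  have hd : ∀ y ∈ A, ∀ z ∈ A, y ≠ z → ε ≤ ‖r y - r z‖ := by
    intro y hy z hz hyz
    obtain ⟨u, hu, h⟩ := hsep y hy z hz hyz
    refine h.trans ?_
    have h1 := norm_le_pi_norm ((r y).1 - (r z).1) ⟨u, hu⟩
    rw [Pi.sub_apply, hr y hy, hr z hz, Real.norm_eq_abs] at h1
    exact h1
  have hinj : Set.InjOn r A := by
    intro y hy z hz h
    by_contra hne
    have h1 := hd y hy z hz hne
    rw [h, sub_self, norm_zero] at h1
    linarith
  have h1 := pack (A.image r) hρ hε ?_ ?_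
  · rw [Finset.card_image_of_injOn hinj] at h1
    refine h1.trans (pow_le_pow_right₀ ?_ (finrank_Y I n))
    have : 0 < 2 * ρ / ε := by positivity
    linarith
  · intro c hc
    obtain ⟨y, hy, rfl⟩ := Finset.mem_image.1 hc
    show ‖(r y).1‖ ≤ ρ
    rw [pi_norm_le_iff_of_nonneg hρ.le]
    intro v
    rw [hr y hy, Real.norm_eq_abs]
    exact (hA y hy).2 v.1 v.2
  · intro c hc d hd' hcd
    obtain ⟨y, hy, rfl⟩ := Finset.mem_image.1 hc
    obtain ⟨z, hz, rfl⟩ := Finset.mem_image.1 hd'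
    exact hd y hy z hz fun h => hcd (by rw [h])

end Pool.Agent.Q14.TY
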